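import Pool.Agent.MP_3ad207_lc.H46.Spec

/-! A set of bounded stability number is covered by boundedly many cliques. -/

set_option autoImplicit false

namespace Pool.Agent.Ehf

namespace Cover

variable {V : Type} [Finite V] {G : SimpleGraph V} {S : Set V}

theorem clq_cover (C : CanSys G S) {Q Z : Set V} (hQ : Clq G Q) (hZ : TriFree G Z)
    (hd : Disjoint Q Z) : ∃ W, C.Can 3 W ∧ Q ⊆ W ∧ Disjoint W Z := by
  classical
  obtain ⟨K, h1, h2, h3⟩ := exists_max_superset hQ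
  have hK : MaxClq G K := ⟨h2, fun K' a b => h3 K' b a⟩
  have hc : (Set.toFinite (K ∩ Z)).toFinset.card ≤ 2 := by
    by_contra h
    obtain ⟨a, b, c, ha, hb, hc, x, y, z⟩ := Finset.two_lt_card_iff.1 (not_le.1 h)
    rw [Set.Finite.mem_toFinset] at ha hb hc
    exact hZ a ha.2 b hb.2 c hc.2 (h2 a ha.1 b hb.1 x) (h2 a ha.1 c hc.1 y) (h2 b hb.1 c hc.1 z)
  have h4 := C.mono (C.finset _) hc
  rw [Set.Finite.coe_toFinset] at h4
  exact ⟨_, C.diff (C.mono (C.clq hK) one_le_two) h4,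
    fun x hx => ⟨h1 hx, fun k => Set.disjoint_left.1 hd hx k.2⟩,
    Set.disjoint_left.2 fun x hx k => hx.2 ⟨hx.1, k⟩⟩

theorem wagon (hG : EHF G) {X : Set V} {k : ℕ} (h : AlphaLe G X k) :
    ∃ (t : Finset (V × V)) (Q : V × V → Set V), t.card ≤ k * k ∧
      (∀ p ∈ t, Clq G (Q p) ∧ Q p ⊆ X) ∧ ∀ x ∈ X, ∃ p ∈ t, x ∈ Q p := by
  classical
  obtain ⟨s, ⟨h1, h2⟩, h3⟩ := Set.exists_max_image
    {s : Finset V | (s : Set V) ⊆ X ∧ Stable G (s : Set V)} Finset.card (Set.toFinite _)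
    ⟨∅, by simp, by simp [Stable]⟩
  have hk := h s h1 h2
  refine ⟨s ×ˢ s, fun p => {x | x ∈ X ∧ ((p.1 ≠ p.2 ∧ G.Adj p.1 x ∧ G.Adj p.2 x) ∨
    (p.1 = p.2 ∧ ∀ c ∈ s, c ≠ p.1 → x ≠ c ∧ ¬ G.Adj c x))},
    (Finset.card_product _ _).trans_le (Nat.mul_le_mul hk hk), ?_, fun x hx => ?_⟩
  · rintro ⟨a, b⟩ hp
    obtain ⟨ha, hb⟩ := Finset.mem_product.1 hp
    refine ⟨?_, fun x hx => hx.1⟩
    rintro x ⟨hx, ⟨n, x1, x2⟩ | ⟨e, x1⟩⟩ y ⟨hy, ⟨n', y1, y2⟩ | ⟨e', y1⟩⟩ hne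
    · exact hG.adj_of_common n (h2 a ha b hb) x1 x2 y1 y2 hne
    · exact absurd e' n
    · exact absurd e n'
    · by_contra hna
      have m1 : y ∉ s.erase a := fun k =>
        (y1 y (Finset.mem_erase.1 k).2 (Finset.mem_erase.1 k).1).1 rfl
      have m2 : x ∉ insert y (s.erase a) := fun k => (Finset.mem_insert.1 k).elim hne fun k =>
        (x1 x (Finset.mem_erase.1 k).2 (Finset.mem_erase.1 k).1).1 rfl
      have := h3 (insert x (insert y (s.erase a))) ⟨?_, ?_⟩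
      · rw [Finset.card_insert_of_notMem m2, Finset.card_insert_of_notMem m1,
          Finset.card_erase_add_one ha] at this
        omega
      · intro z hz
        simp only [Finset.coe_insert, Set.mem_insert_iff, Finset.mem_coe, Finset.mem_erase] at hz
        rcases hz with rfl | rfl | hz
        exacts [hx, hy, h1 hz.2]
      · intro z hz w hw
        simp only [Finset.coe_insert, Set.mem_insert_iff, Finset.mem_coe,
          Finset.mem_erase] at hz hw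
        rcases hz with rfl | rfl | hz <;> rcases hw with rfl | rfl | hw
        exacts [G.irrefl, hna, fun k => (x1 w hw.2 hw.1).2 k.symm, fun k => hna k.symm, G.irrefl,
          fun k => (y1 w hw.2 hw.1).2 k.symm, (x1 z hz.2 hz.1).2, (y1 z hz.2 hz.1).2,
          h2 z hz.2 w hw.2]
  · by_cases hs : x ∈ s
    · exact ⟨(x, x), Finset.mem_product.2 ⟨hs, hs⟩, hx,
        Or.inr ⟨rfl, fun c hc n => ⟨n.symm, h2 c hc x hs⟩⟩⟩
    by_cases ha : ∃ a ∈ s, G.Adj a x
    · obtain ⟨a, ha, e⟩ := ha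
      by_cases hb : ∃ b ∈ s, b ≠ a ∧ G.Adj b x
      · obtain ⟨b, hb, n, e'⟩ := hb
        exact ⟨(a, b), Finset.mem_product.2 ⟨ha, hb⟩, hx, Or.inl ⟨n.symm, e, e'⟩⟩
      · exact ⟨(a, a), Finset.mem_product.2 ⟨ha, ha⟩, hx,
          Or.inr ⟨rfl, fun c hc n => ⟨fun k => hs (k ▸ hc), fun k => hb ⟨c, hc, n, k⟩⟩⟩⟩
    · have := h3 (insert x s) ⟨?_, ?_⟩
      · rw [Finset.card_insert_of_notMem hs] at this
        omega
      · rw [Finset.coe_insert]
        exact Set.insert_subset hx h1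
      · intro z hz w hw
        simp only [Finset.coe_insert, Set.mem_insert_iff, Finset.mem_coe] at hz hw
        rcases hz with rfl | hz <;> rcases hw with rfl | hw
        exacts [G.irrefl, fun k => ha ⟨w, hw, k.symm⟩, fun k => ha ⟨z, hz, k⟩, h2 z hz w hw]

end Cover

open Cover in
theorem coverStmt : CoverStmt := by
  refine ⟨fun k => 3 + k * k, fun V _ G hG S C X Z k h hZ hd => ?_⟩
  obtain ⟨t, Q, h1, h2, h3⟩ := wagon hG h
  choose! W hW using fun p (hp : p ∈ t) => clq_cover C (h2 p hp).1 hZ (hd.mono_left (h2 p hp).2)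
  refine ⟨_, C.mono (C.biUnion t fun p hp => (hW p hp).1) (Nat.add_le_add_left h1 3),
    fun x hx => ?_, Set.disjoint_left.2 fun x hx => ?_⟩
  · obtain ⟨p, hp, k⟩ := h3 x hx
    exact Set.mem_biUnion hp ((hW p hp).2.1 k)
  · obtain ⟨p, hp, k⟩ := Set.mem_iUnion₂.1 hx
    exact Set.disjoint_left.1 (hW p hp).2.2 k

end Pool.Agent.Ehf
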