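import Pool.Agent.MP_3ad207_lc.H6.HubSpec
import Pool.Agent.MP_3ad207_lc.H1.Cover

/-! The hubs of one pair lie in a canonical set that misses the tree. -/

set_option autoImplicit false

namespace Pool.Agent.Ehf

namespace HubCover

variable {V : Type} {G : SimpleGraph V} {S I : Set V} {u x v w z z' y y' : V}

theorem DZ_ne (h : w ∈ DZ G z v) : w ≠ z ∧ ¬ G.Adj w z :=
  not_or.1 fun k => comp_subset _ _ h (mem_cN_singleton.2 k)

theorem bd (h : w ∈ cN G (DZ G z v)) (h' : w ∉ DZ G z v) : G.Adj w z := by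
  by_contra c
  refine h' (mem_comp_of_cN (fun k => ?_) h)
  obtain rfl := (mem_cN_singleton.1 k).resolve_right c
  obtain ⟨y, hy, e⟩ := h.resolve_left h'
  exact (DZ_ne hy).2 e.symm

theorem sub (h : z' ∉ cN G (DZ G z v)) : DZ G z v ⊆ DZ G z' v := fun _ hy =>
  (conn_comp hy.1).subset_comp_of_mem (fun w hw k => h ((mem_cN_singleton (v := w).1 k).elim
    (fun e : w = z' => Or.inl (e ▸ hw)) fun e => Or.inr ⟨_, hw, e.symm⟩)) (mem_comp_self hy.1) hy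

theorem sub' (h : ¬ G.Adj z' z) (h' : z' ∉ DZ G z v) : DZ G z v ⊆ DZ G z' v :=
  sub fun k => h (bd k h')

theorem exit {P E : Set V} (hP : Conn G P) {p q : V} (hp : p ∈ P) (hq : q ∈ P) (pE : p ∈ E)
    (qE : q ∉ E) : ∃ w ∈ P, w ∈ cN G E ∧ w ∉ E := by
  by_contra c
  refine qE ((hP.rin hp hq).closed pE fun a b ha e hb => ?_)
  by_contra k
  exact c ⟨b, hb, Or.inr ⟨a, ha, e.symm⟩, k⟩

theorem arcs {f : ℕ → V} {n i : ℕ} (h : Sect G S I z f n) (hi : i ≤ n) :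
    Conn G (insert z (seg f 0 i)) ∧ Conn G (insert z (seg f i n)) :=
  ⟨(h.ip.conn_seg (Nat.zero_le _) hi).ins (Or.inr ⟨_, apply_mem_seg le_rfl (Nat.zero_le _), h.left⟩),
    (h.ip.conn_seg hi le_rfl).ins (Or.inr ⟨_, apply_mem_seg hi le_rfl, h.right⟩)⟩

theorem u_not (hz : z ∈ HubP G S I u x) : u ∉ cN G {z} := by
  obtain ⟨h1, ⟨f, n, i, h, h0, hi, rfl⟩, -⟩ := hz
  exact h.inner_notMem h1 h0 hi

theorem x_not (hx : x ∈ HH S I) (hz : z ∈ HubP G S I u x) : x ∉ cN G {z} := fun k =>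
  (mem_cN_singleton.1 k).elim (fun e => hz.1 (e ▸ hx)) fun e => hz.2.2.1 e.symm

theorem far (hx : x ∈ HH S I) (hz : z ∈ HubP G S I u x) (h : w ∈ DZ G z u) :
    w ∉ cN G (DZ G z x) :=
  anti_iff.1 (comp_anti_of_notMem (x_not hx hz) hz.2.2.2.1).symm w h

theorem cmp (hG : EHF G) (hz : z ∈ HubP G S I u x) (hne : z ≠ z') (hna : ¬ G.Adj z z') :
    z ∈ DZ G z' u ∨ z' ∈ DZ G z u := by
  by_contra c
  obtain ⟨c1, c2⟩ := not_or.1 c
  have e : DZ G z u = DZ G z' u := (sub' (fun k => hna k.symm) c2).antisymm (sub' hna c1)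
  obtain ⟨h1, ⟨f, n, i, h, h0, hi, rfl⟩, -⟩ := hz
  have k : ∀ j, 0 < j → j < n → f j ∈ DZ G z (f i) := fun j a b =>
    kap_subset_DZ z _ (h.mem_kap h1 h0 hi a b)
  have a : G.Adj (f 0) z' := bd (e ▸ Or.inr ⟨_, k 1 one_pos (by omega), h.ip.adj_succ (by omega)⟩)
    (e ▸ fun t => (DZ_ne t).2 h.left.symm)
  have b : G.Adj (f n) z' := bd
    (e ▸ Or.inr ⟨_, k (n - 1) (by omega) (by omega), h.ip.adj_pred (by omega) le_rfl⟩)
    (e ▸ fun t => (DZ_ne t).2 h.right.symm)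
  exact hna (hG.adj_of_common (h.ip.ne (Nat.zero_le _) le_rfl (by omega))
    (h.ip.not_adj (by omega) le_rfl) h.left.symm h.right.symm a b hne)

/-- mutual pairs -/
def Mut (G : SimpleGraph V) (S I : Set V) (u x z z' : V) : Prop :=
  z ∈ HubP G S I u x ∧ z' ∈ HubP G S I u x ∧ z ∈ DZ G z' u ∧ z' ∈ DZ G z u

theorem Mut.symm (h : Mut G S I u x z z') : Mut G S I u x z' z := ⟨h.2.1, h.1, h.2.2.2, h.2.2.1⟩

theorem Mut.eq (hx : x ∈ HH S I) (h : Mut G S I u x z z') : DZ G z x = DZ G z' x :=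
  (sub (far hx h.1 h.2.2.2)).antisymm (sub (far hx h.2.1 h.2.2.1))

theorem Mut.clq (hG : EHF G) (hx : x ∈ HH S I) (h : Mut G S I u x z z') :
    Clq G (cN G (DZ G z x) \ DZ G z x) := fun _ ha _ hb hne =>
  hG.adj_of_common (DZ_ne h.2.2.1).1 (DZ_ne h.2.2.1).2 (bd ha.1 ha.2).symm
    (bd (h.eq hx ▸ ha.1) (h.eq hx ▸ ha.2)).symm (bd hb.1 hb.2).symm
    (bd (h.eq hx ▸ hb.1) (h.eq hx ▸ hb.2)).symm hne

theorem Mut.notMem (hG : EHF G) (hx : x ∈ HH S I) (h : Mut G S I u x z z')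
    (hy : y ∈ HubP G S I u x) : y ∉ DZ G z x := by
  intro c
  have hu := far hx h.1 (mem_comp_self (u_not h.1))
  have hc := h.clq hG hx
  obtain ⟨-, ⟨f, n, i, s, h0, hi, rfl⟩, -⟩ := hy
  obtain ⟨a, a1, a2, a3⟩ := exit (arcs s hi.le).1 (Or.inl rfl)
    (Or.inr (apply_mem_seg (Nat.zero_le _) le_rfl)) c fun k => hu (Or.inl k)
  obtain ⟨b, b1, b2, b3⟩ := exit (arcs s hi.le).2 (Or.inl rfl)
    (Or.inr (apply_mem_seg le_rfl hi.le)) c fun k => hu (Or.inl k)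
  obtain ⟨k, -, k2, rfl⟩ := a1.resolve_left fun e => a3 (e ▸ c)
  obtain ⟨l, l1, l2, rfl⟩ := b1.resolve_left fun e => b3 (e ▸ c)
  have k3 : k ≠ i := fun e => hu (e ▸ a2)
  have l3 : l ≠ i := fun e => hu (e ▸ b2)
  exact s.ip.not_adj (by omega) l2 (hc _ ⟨a2, a3⟩ _ ⟨b2, b3⟩ (s.ip.ne (by omega) l2 (by omega)))

theorem Mut.le (hG : EHF G) (hx : x ∈ HH S I) (h : Mut G S I u x z z')
    (h' : Mut G S I u x y y') : DZ G z x ⊆ DZ G y x := by
  by_cases a : y ∈ cN G (DZ G z x)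
  · rw [h'.eq hx]
    exact sub fun b => (DZ_ne h'.2.2.1).2 (h.clq hG hx _ ⟨a, h.notMem hG hx h'.1⟩ _
      ⟨b, h.notMem hG hx h'.2.1⟩ (DZ_ne h'.2.2.1).1)
  · exact sub a

theorem sep_iff {t : V} : z ∈ SepSet G ∅ Set.univ u t ↔
    u ∉ cN G {z} ∧ t ∉ cN G {z} ∧ t ∉ DZ G z u := by
  have e : ball G ∅ z = {z} := by
    ext y
    simp [ball]
  rw [SepSet, Set.mem_ofPred_eq, e, ← Set.compl_eq_univ_sdiff]
  rfl

theorem sep_disj (h : Setup G S I) {t : V} (ht : t ∈ HubP G S I u x) :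
    Disjoint (SepSet G ∅ Set.univ u t) (HH S I) := by
  refine Set.disjoint_left.2 fun z hz hH => ?_
  obtain ⟨z1, z2, z3⟩ := sep_iff.1 hz
  obtain ⟨-, ⟨f, n, i, s, h0, hi, rfl⟩, -⟩ := ht
  have key : ∀ p q, p ≤ i → i ≤ q → Conn G (insert t (seg f p q)) →
      ∃ k, p ≤ k ∧ k ≤ q ∧ k ≠ i ∧ f k ∈ cN G {z} := by
    intro p q hp hq hc
    by_contra c
    refine z3 (hc.subset_comp_of_mem ?_ (Or.inr (apply_mem_seg hp hq)) (Or.inl rfl))
    rintro _ (rfl | ⟨k, k1, k2, rfl⟩)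
    · exact z2
    · exact fun a => c ⟨k, k1, k2, fun e => z1 (e ▸ a), a⟩
  obtain ⟨k, -, k2, k3, k4⟩ := key 0 i (Nat.zero_le _) le_rfl (arcs s hi.le).1
  obtain ⟨l, l1, l2, l3, l4⟩ := key i n le_rfl hi.le (arcs s hi.le).2
  have n1 : f k ≠ f l := s.ip.ne (by omega) l2 (by omega)
  have n2 : ¬ G.Adj (f k) (f l) := s.ip.not_adj (by omega) l2
  rcases mem_cN_singleton.1 k4 with a | a <;> rcases mem_cN_singleton.1 l4 with b | b
  · exact n1 (a.trans b.symm)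
  · exact n2 (a ▸ b.symm)
  · exact n2 (b ▸ a)
  by_cases c : z ∈ seg f 0 n
  · obtain ⟨m, -, m2, rfl⟩ := c
    have := (s.ip.adj_iff (by omega) m2).1 a
    have := (s.ip.adj_iff l2 m2).1 b
    obtain rfl : m = i := by omega
    exact z1 (Or.inl rfl)
  · exact n1 (h.one_nbr (s.ip.conn_seg (Nat.zero_le _) le_rfl) (seg_subset fun j _ hj => s.mem j hj)
      hH c (apply_mem_seg (Nat.zero_le _) (by omega)) (apply_mem_seg (Nat.zero_le _) l2)
      a.symm b.symm)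

theorem can_nb (h : Setup G S I) (C : CanSys G S) (hw : w ∈ HH S I) :
    C.Can 4 (cN G {w} \ HH S I) := by
  classical
  have c1 := C.nbhd (C.single w)
  rcases hw with hw | hw
  · rw [h.black_cN_diff hw]
    exact C.mono (C.diff (C.diff c1 (C.mono C.white zero_le_one))
      (C.mono (C.single w) (Nat.zero_le _))) (by omega)
  · obtain ⟨a, b, -, a1, b1, -, -, k⟩ := h.white_nbrs hw
    have e : cN G {w} \ HH S I = cN G {w} \ (({w, a, b} : Finset V) : Set V) := by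
      ext y
      simp only [Set.mem_sdiff, mem_cN_singleton, Finset.coe_insert, Finset.coe_singleton,
        Set.mem_insert_iff, Set.mem_singleton_iff, and_congr_right_iff, not_iff_not]
      refine fun c => ⟨fun hy => c.imp_right fun e => k y hy e.symm, ?_⟩
      rintro (rfl | rfl | rfl)
      exacts [Or.inr hw, Or.inl a1, Or.inl b1]
    rw [e]
    exact C.diff (C.mono c1 (by omega)) (C.mono (C.finset _) Finset.card_le_three)

theorem top [Finite V] (hG : EHF G) {Z : Set V} (hZ : Z ⊆ HubP G S I u x)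
    (hm : ∀ z ∈ Z, ∀ z' ∈ Z, z ∈ DZ G z' u → z' ∉ DZ G z u) (hne : Z.Nonempty) :
    ∃ s ∈ Z, ∀ z ∈ Z, ∀ t ∈ Z, z ∈ DZ G t u → z ∈ DZ G s u := by
  obtain ⟨s, hs, hmax⟩ := Set.exists_max_image Z (fun t => (Z ∩ DZ G t u).ncard) (Set.toFinite _) hne
  refine ⟨s, hs, fun z hz t ht h => ?_⟩
  by_contra c
  have le : ∀ a ∈ Z, ∀ b ∈ Z, a ∈ DZ G b u → DZ G a u ⊆ DZ G b u := fun a ha b hb k =>
    sub' (fun e => (DZ_ne k).2 e.symm) (hm a ha b hb k)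
  have adj : ∀ a ∈ Z, ∀ b, a ≠ b → a ∉ DZ G b u → b ∉ DZ G a u → G.Adj a b := fun a ha b n k k' =>
    by_contra fun e => (cmp hG (hZ ha) n e).elim k k'
  obtain ⟨y, ⟨hy, y1⟩, y2⟩ : ∃ y ∈ Z ∩ DZ G s u, y ∉ DZ G t u := by
    by_contra k
    push Not at k
    exact (hmax t ht).not_gt (Set.ncard_lt_ncard
      ⟨fun y hy => ⟨hy.1, k y hy⟩, fun e => c (e ⟨hz, h⟩).2⟩ (Set.toFinite _))
  have e1 : G.Adj t s := adj t ht s (fun e => c (e ▸ h)) (fun k => c (le t ht s hs k h))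
    fun k => y2 (le s hs t ht k y1)
  have e2 : G.Adj z s := adj z hz s (fun e => (DZ_ne h).2 (e ▸ e1.symm)) c
    fun k => y2 (le z hz t ht h (le s hs z hz k y1))
  have e3 : G.Adj y t := adj y hy t (fun e => (DZ_ne y1).2 (e ▸ e1)) y2
    fun k => c (le y hy s hs y1 (le t ht y hy k h))
  have e4 : G.Adj z y := adj z hz y (fun e => y2 (e ▸ h)) (fun k => c (le y hy s hs y1 k))
    fun k => y2 (le z hz t ht h k)
  exact (DZ_ne y1).2 (hG.adj_of_common (DZ_ne h).1 (DZ_ne h).2 e4 e3.symm e2 e1 (DZ_ne y1).1)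

end HubCover

open HubCover in
theorem hubCoverStmt : HubCoverStmt := by
  intro V _ G S I h C u hu x hx
  have hG := h.ehf
  obtain ⟨X₁, a1, a2, a3⟩ : ∃ X, C.Can 4 X ∧ (∀ z z', Mut G S I u x z z' → z ∈ X) ∧
      Disjoint X (HH S I) := by
    by_cases c : ∃ z z', Mut G S I u x z z'
    · obtain ⟨z, z', hz⟩ := c
      obtain ⟨w, w1, w2, w3⟩ := exit h.conn hx hu (mem_comp_self (x_not hx hz.1))
        fun k => far hx hz.1 (mem_comp_self (u_not hz.1)) (Or.inl k)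
      refine ⟨_, can_nb h C w1, fun y y' hy => ⟨mem_cN_singleton.2 (Or.inr ?_), hy.1.1⟩,
        Set.disjoint_sdiff_left⟩
      exact (bd (cN_mono (hz.le hG hx hy) w2) fun k => w3 (hy.le hG hx hz k)).symm
    · exact ⟨∅, C.mono C.empty (Nat.zero_le _), fun z z' k => (c ⟨z, z', k⟩).elim,
        Set.empty_disjoint _⟩
  obtain ⟨Z, hZ⟩ : ∃ Z : Set V, ∀ z, z ∈ Z ↔ z ∈ HubP G S I u x ∧ ∀ z', ¬ Mut G S I u x z z' :=
    ⟨{z | _}, fun _ => Iff.rfl⟩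
  have z1 : Z ⊆ HubP G S I u x := fun z hz => ((hZ z).1 hz).1
  have z2 : ∀ z ∈ Z, ∀ z' ∈ Z, z ∈ DZ G z' u → z' ∉ DZ G z u := fun z hz z' hz' a b =>
    ((hZ z).1 hz).2 z' ⟨z1 hz, z1 hz', a, b⟩
  obtain ⟨X₂, b1, b2, b3⟩ := Cover.clq_cover C (Q := {z | z ∈ Z ∧ ∀ t ∈ Z, z ∉ DZ G t u})
    (fun a ha b hb n => by_contra fun e =>
      (cmp hG (z1 ha.1) n e).elim (ha.2 b hb.1) (hb.2 a ha.1)) h.triFree
    (Set.disjoint_left.2 fun z hz => (z1 hz.1).1)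
  obtain ⟨X₃, c1, c2, c3⟩ : ∃ X, C.Can 1 X ∧ (∀ z ∈ Z, ∀ t ∈ Z, z ∈ DZ G t u → z ∈ X) ∧
      Disjoint X (HH S I) := by
    rcases Z.eq_empty_or_nonempty with rfl | c
    · exact ⟨∅, C.mono C.empty (Nat.zero_le _), fun _ k => k.elim, Set.empty_disjoint _⟩
    · obtain ⟨s, hs, k⟩ := top hG z1 z2 c
      refine ⟨_, C.sep u s C.empty C.univ, fun z hz t ht e => ?_, sep_disj h (z1 hs)⟩
      have e' := k z hz t ht e
      exact sep_iff.2 ⟨u_not (z1 hz), fun a => (mem_cN_singleton.1 a).elim (DZ_ne e').1.symm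
        fun b => (DZ_ne e').2 b.symm, z2 z hz s hs e'⟩
  refine ⟨X₁ ∪ X₂ ∪ X₃, C.mono (C.union (C.union a1 (C.mono b1 (by omega))) (C.mono c1 (by omega)))
    (by omega), fun z hz => ?_, (a3.union_left b3).union_left c3⟩
  by_cases m : ∃ z', Mut G S I u x z z'
  · exact Or.inl (Or.inl (m.elim (a2 z)))
  have hz' : z ∈ Z := (hZ z).2 ⟨hz, fun z' k => m ⟨z', k⟩⟩
  by_cases t : ∃ t ∈ Z, z ∈ DZ G t u
  · obtain ⟨t, t1, t2⟩ := t
    exact Or.inr (c2 z hz' t t1 t2)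
  · exact Or.inl (Or.inr (b2 ⟨hz', fun s s1 s2 => t ⟨s, s1, s2⟩⟩))

end Pool.Agent.Ehf
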